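import Pool.Agent.W315.MD.Main
import Pool.Agent.W315.LB.Final
import Pool.Agent.H76R2.TX.Final6
import Pool.Agent.H76R2.TX.Ten
import Pool.Agent.H76R2.TX.Pet
import Pool.Agent.H76R2.TX.BagL6
import Pool.Agent.H76R2.FC.ToR
import Pool.Agent.H76R2.FC.CoverIff

set_option autoImplicit false

namespace Pool.Agent.W315.MD

open Finset H76FC H76TX H76TY Pool.Agent.W315.LB

theorem ten' : S_base 2 :=
  ten_of transport (tight enum distribute matchFib glue) reindex H76TW.pm eight' remove addback'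
    (uncross badCompl) badCompl indep pentagon switch1 switch2 pet_cover

/-- the classes of graphs that are settled for double covers -/
def Known2 (W : Type) [Fintype W] (H : SimpleGraph W) : Prop :=
  Fintype.card W ≤ 10 ∨ (Fintype.card W ≤ 13 ∧ ¬ PetMinor H) ∨ Sum6 H ∨
  ∃ c : W → Bool, ∀ a b a' b' : W, H.Adj a b → H.Adj a' b' → c a = c b → c a' = c b' →
    c a = c a' → a = a' ∨ a = b' ∨ b = a' ∨ b = b'

theorem double {V : Type} [Fintype V] [DecidableEq V] {r : ℕ} {p : V → V → ℕ}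
    (hp : RGraph r p) (h : Cover 1 r p) : Cover 2 r p := by
  obtain ⟨h1, h2⟩ := H76TW.span V 2 r p hp
  apply h2
  obtain ⟨M, hM1, hM2⟩ := h
  have hcol : H76TW.Col (1 * r) p := ⟨M, fun i u => (hM1 i).1 u, fun u v _ => by rw [hM2, one_mul]⟩
  have hcol' : H76TW.Col r p := H76TW.col_congr hcol (one_mul r) (fun _ _ => rfl)
  exact colmul' V 2 r p hcol'

theorem cover_known2 {V : Type} [Fintype V] [DecidableEq V] {r : ℕ} {p : V → V → ℕ}
    (hp : RGraph r p) (h : Known2 V (gr p)) : Cover 2 r p := by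
  have hadj : ∀ u v, p u v ≠ 0 → (gr p).Adj u v := by
    intro u v huv
    refine Y13.adj_gr p u v ?_ (Nat.pos_of_ne_zero huv)
    rintro rfl
    exact huv (hp.loopless _)
  rcases h with hc | ⟨hc, hP⟩ | hS | ⟨c, hc⟩
  · exact ten' V r p hc hp
  · exact double hp (thirteen _ hc V rfl r p hp hP)
  · exact sum6_cover bagList6
      (main6_of H76TW.num H76TW.closA H76TW.closB H76TW.del H76TW.glue3 H76TW.restr H76TW.bip
        colmul' ten') H76TW.span _ hS hp hadj
  · exact double hp (cover_known hp (Or.inr (Or.inr ⟨c, hc⟩)))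

theorem cover2 (h3 : S_conn3) (hbi : S_bicrit) (V : Type) [Fintype V] [DecidableEq V] (r : ℕ)
    (p : V → V → ℕ) (hp : RGraph r p)
    (hG : ∀ (W : Type) [Fintype W] (H : SimpleGraph W), Brick H → OddMinor H (gr p) → Known2 W H) :
    Cover 2 r p :=
  main2 2 h3 hbi transport H76TW.bip H76TW.span tight2 connSide Known2
    (fun V _ _ r p hc hp => double hp (eight' V r p (by omega) hp))
    (fun V _ _ r p _ hp _ _ hk => Or.inl (cover_known2 hp hk)) _ V rfl r p hp hG

theorem mcover2 (h3 : S_conn3) (hbi : S_bicrit) {r n m : ℕ} (ends : Fin m → Sym2 (Fin n))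
    (hG : MGraph r ends)
    (hB : ∀ (W : Type) [Fintype W] (H : SimpleGraph W), Brick H →
      OddMinor H (SimpleGraph.fromEdgeSet (Set.range ends)) → Known2 W H) : MCover 2 r ends := by
  obtain ⟨hp, _⟩ := toR r n m ends hG
  rw [coverIff 2 r n m ends hG]
  refine cover2 h3 hbi _ r _ hp ?_
  intro W _ H hH ho
  refine hB W H hH (oddMinor_sub H _ _ id Function.injective_id ?_ ho)
  intro a b hab
  have hmul : ∀ a b : Fin n, mult ends a b ≠ 0 → ∃ e, ends e = s(a, b) := by
    intro a b huv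
    unfold mult at huv
    obtain ⟨e, he⟩ := Finset.card_pos.1 (Nat.pos_of_ne_zero huv)
    exact ⟨e, (Finset.mem_filter.1 he).2⟩
  unfold gr at hab
  rw [SimpleGraph.fromRel_adj] at hab
  rw [SimpleGraph.fromEdgeSet_adj]
  refine ⟨?_, hab.1⟩
  rcases hab.2 with h1 | h1
  · obtain ⟨e, he⟩ := hmul a b (by omega)
    exact ⟨e, he⟩
  · obtain ⟨e, he⟩ := hmul b a (by omega)
    exact ⟨e, by simp only [id]; rw [he, Sym2.eq_swap]⟩

end Pool.Agent.W315.MD
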